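import Mathlib
import Pool.Agent.Lib.MP_fe2d2a_anR.Odd

/-!
The substitution `x ↦ (x + s) / (1 + s x)` in a product of quadratic factors.
-/

set_option autoImplicit false

open Finset Polynomial Filter Set

namespace Pool.Agent.MP_fe2d2a_anP

open Pool.Agent.MP_fe2d2a_anR

variable {ι : Type*} [DecidableEq ι]

/-- The transformed factor. -/
noncomputable def mf (c s : ℝ) : ℝ[X] :=
  C (1 + s ^ 2 - 2 * s * c) * (X ^ 2 + 1) - C (2 * ((1 + s ^ 2) * c - 2 * s)) * X

/-- The transformed product. -/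
noncomputable def MP (c : ι → ℝ) (A : Finset ι) (s : ℝ) : ℝ[X] := ∏ k ∈ A, mf (c k) s

lemma mf_eval (c s x : ℝ) : (mf c s).eval x =
    (x + s) ^ 2 - 2 * c * (x + s) * (1 + s * x) + (1 + s * x) ^ 2 := by
  unfold mf
  simp only [eval_sub, eval_mul, eval_C, eval_add, eval_pow, eval_X, eval_one]
  ring

omit [DecidableEq ι] in
lemma MP_eq (c : ι → ℝ) (A : Finset ι) {s : ℝ} (hs : 0 ≤ s) :
    MP c A s = ∑ i ∈ range (2 * A.card + 1), C ((QP c A).coeff i) *
      ((X + C s) ^ i * (1 + C s * X) ^ (2 * A.card - i)) := by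
  apply eq_of_infinite_eval_eq
  apply Set.Infinite.mono _ (Set.Ioi_infinite (0 : ℝ))
  intro x hx
  have hx : 0 < x := hx
  have hv : 1 + s * x ≠ 0 := by positivity
  set v := 1 + s * x with hvdef
  rw [Set.mem_ofPred_eq]
  have e1 : (MP c A s).eval x = v ^ (2 * A.card) * (QP c A).eval ((x + s) / v) := by
    unfold MP QP
    rw [eval_prod, eval_prod, pow_mul, ← Finset.prod_const, ← Finset.prod_mul_distrib]
    apply Finset.prod_congr rfl
    intro k _
    rw [mf_eval]
    simp only [eval_sub, eval_mul, eval_C, eval_add, eval_pow, eval_X, eval_one]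
    rw [← hvdef]
    field_simp
  have e2 : (QP c A).eval ((x + s) / v) =
      ∑ i ∈ range (2 * A.card + 1), (QP c A).coeff i * ((x + s) / v) ^ i := by
    rw [eval_eq_sum_range, QP_natDegree]
  rw [e1, e2, eval_finsetSum, Finset.mul_sum]
  apply Finset.sum_congr rfl
  intro i hi
  have hi' : i ≤ 2 * A.card := by
    have := Finset.mem_range.1 hi
    omega
  rw [eval_mul, eval_mul, eval_C, eval_pow, eval_pow, eval_add, eval_add, eval_mul, eval_X, eval_C,
    eval_one, ← hvdef, div_pow]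
  have e3 : v ^ (2 * A.card) = v ^ (2 * A.card - i) * v ^ i := by
    rw [← pow_add]
    congr 1
    omega
  rw [e3]
  field_simp

lemma coeff_nonneg_mul {p q : ℝ[X]} (hp : ∀ j, 0 ≤ p.coeff j) (hq : ∀ j, 0 ≤ q.coeff j) :
    ∀ j, 0 ≤ (p * q).coeff j := by
  intro j
  rw [coeff_mul]
  exact Finset.sum_nonneg (fun i _ => mul_nonneg (hp _) (hq _))

lemma coeff_nonneg_pow {p : ℝ[X]} (hp : ∀ j, 0 ≤ p.coeff j) (N : ℕ) :
    ∀ j, 0 ≤ (p ^ N).coeff j := by
  induction N with
  | zero =>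
    intro j
    rw [pow_zero, coeff_one]
    split_ifs <;> norm_num
  | succ N ih =>
    rw [pow_succ]
    exact coeff_nonneg_mul ih hp

lemma coeff_pow_pos {s : ℝ} (hs : 0 < s) (N : ℕ) :
    ∀ j, j ≤ N → 0 < ((1 + C s * X : ℝ[X]) ^ N).coeff j := by
  have h0 : ∀ j, 0 ≤ (1 + C s * X : ℝ[X]).coeff j := by
    intro j
    rw [coeff_add, coeff_C_mul, coeff_one, coeff_X]
    split_ifs <;> positivity
  induction N with
  | zero =>
    intro j hj
    have : j = 0 := by omega
    rw [this, pow_zero, coeff_one]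
    norm_num
  | succ N ih =>
    intro j hj
    have e : (1 + C s * X : ℝ[X]) ^ (N + 1) =
        (1 + C s * X) ^ N + C s * (X * (1 + C s * X) ^ N) := by
      rw [pow_succ]
      ring
    rw [e, coeff_add, coeff_C_mul]
    rcases j with _ | j
    · have h1 := ih 0 (by omega)
      rw [mul_coeff_zero, coeff_X_zero, zero_mul, mul_zero, add_zero]
      exact h1
    · rw [coeff_X_mul]
      have h1 := ih j (by omega)
      have h2 := coeff_nonneg_pow h0 N (j + 1)
      positivity

omit [DecidableEq ι] in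
/-- For `s > 0` all coefficients of the transformed product are positive. -/
lemma MP_coeff_pos (c : ι → ℝ) (A : Finset ι) {s : ℝ} (hs : 0 < s)
    (h : ∀ j, 0 ≤ (QP c A).coeff j) (j : ℕ) (hj : j ≤ 2 * A.card) :
    0 < (MP c A s).coeff j := by
  rw [MP_eq c A hs.le, finsetSum_coeff]
  have h1 : ∀ j, 0 ≤ (1 + C s * X : ℝ[X]).coeff j := by
    intro j
    rw [coeff_add, coeff_C_mul, coeff_one, coeff_X]
    split_ifs <;> positivity
  have h2 : ∀ j, 0 ≤ (X + C s : ℝ[X]).coeff j := by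
    intro j
    rw [coeff_add, coeff_C, coeff_X]
    split_ifs <;> positivity
  apply Finset.sum_pos'
  · intro i _
    rw [coeff_C_mul]
    exact mul_nonneg (h i) (coeff_nonneg_mul (coeff_nonneg_pow h2 _) (coeff_nonneg_pow h1 _) j)
  · refine ⟨0, Finset.mem_range.2 (by omega), ?_⟩
    rw [coeff_C_mul, QP_coeff_zero, one_mul, pow_zero, one_mul, Nat.sub_zero]
    exact coeff_pow_pos hs _ j hj

lemma mf_coeff_continuous (c : ℝ) (i : ℕ) : Continuous (fun s => (mf c s).coeff i) := by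
  have e : (fun s => (mf c s).coeff i) = fun s =>
      (1 + s ^ 2 - 2 * s * c) * (X ^ 2 + 1 : ℝ[X]).coeff i -
        (2 * ((1 + s ^ 2) * c - 2 * s)) * (X : ℝ[X]).coeff i := by
    funext s
    unfold mf
    rw [coeff_sub, coeff_C_mul, coeff_C_mul]
  rw [e]
  fun_prop

lemma MP_coeff_continuous (c : ι → ℝ) (A : Finset ι) :
    ∀ j, Continuous (fun s => (MP c A s).coeff j) := by
  induction A using Finset.induction_on with
  | empty =>
    intro j
    simp only [MP, Finset.prod_empty]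
    exact continuous_const
  | insert k A hk ih =>
    intro j
    have e : (fun s => (MP c (insert k A) s).coeff j) = fun s =>
        ∑ x ∈ antidiagonal j, (mf (c k) s).coeff x.1 * (MP c A s).coeff x.2 := by
      funext s
      unfold MP
      rw [Finset.prod_insert hk, coeff_mul]
    rw [e]
    apply continuous_finsetSum
    intro x _
    exact (mf_coeff_continuous _ _).mul (ih _)

lemma mf_zero (c : ℝ) : mf c 0 = X ^ 2 - C (2 * c) * X + 1 := by
  unfold mf
  have e1 : (1 : ℝ) + 0 ^ 2 - 2 * 0 * c = 1 := by ring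
  have e2 : 2 * ((1 + (0 : ℝ) ^ 2) * c - 2 * 0) = 2 * c := by ring
  rw [e1, e2, C_1]
  ring

lemma mf_one (c : ℝ) : mf c 1 = C (2 - 2 * c) * (X + 1) ^ 2 := by
  unfold mf
  have e1 : (1 : ℝ) + 1 ^ 2 - 2 * 1 * c = 2 - 2 * c := by ring
  have e2 : 2 * ((1 + (1 : ℝ) ^ 2) * c - 2 * 1) = -(2 * (2 - 2 * c)) := by ring
  have e3 : C (-(2 * (2 - 2 * c)) : ℝ) = (-(2 * C (2 - 2 * c)) : ℝ[X]) := by
    rw [C_neg, C_mul]
    rfl
  rw [e1, e2, e3]
  ring

omit [DecidableEq ι] in
lemma MP_zero (c : ι → ℝ) (A : Finset ι) : MP c A 0 = QP c A := by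
  unfold MP QP
  simp only [mf_zero]

omit [DecidableEq ι] in
lemma MP_one_coeff_pos (c : ι → ℝ) (A : Finset ι) (h : ∀ k ∈ A, c k < 1) (j : ℕ)
    (hj : j ≤ 2 * A.card) : 0 < (MP c A 1).coeff j := by
  have e : MP c A 1 = C (∏ k ∈ A, (2 - 2 * c k)) * (X + 1) ^ (2 * A.card) := by
    unfold MP
    simp only [mf_one]
    rw [Finset.prod_mul_distrib, Finset.prod_const, ← pow_mul, map_prod]
  rw [e, coeff_C_mul, coeff_X_add_one_pow]
  apply mul_pos
  · apply Finset.prod_pos
    intro k hk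
    linarith [h k hk]
  · exact_mod_cast Nat.choose_pos hj

end Pool.Agent.MP_fe2d2a_anP
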