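import Mathlib
import Pool.Agent.Lib.MP_fe2d2a_anP.Moebius

/-!
The path of angles `s ↦ ma s θ`, from `θ` at `s = 0` to `π` at `s = 1`.
-/

set_option autoImplicit false

open Finset Polynomial Filter Set

namespace Pool.Agent.MP_fe2d2a_anP

open Pool.Agent.MP_fe2d2a_anR

variable {ι : Type*} [DecidableEq ι]

/-- The moved angle. -/
noncomputable def ma (s θ : ℝ) : ℝ :=
  Real.arccos (((1 + s ^ 2) * Real.cos θ - 2 * s) / (1 + s ^ 2 - 2 * s * Real.cos θ))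

lemma den_pos {s θ : ℝ} (h0 : 0 < θ) (h1 : θ < Real.pi) (hs0 : 0 ≤ s) :
    0 < 1 + s ^ 2 - 2 * s * Real.cos θ := by
  have hc : Real.cos θ < 1 := by
    have := Real.cos_lt_cos_of_nonneg_of_le_pi le_rfl h1.le h0
    rwa [Real.cos_zero] at this
  rcases hs0.eq_or_lt with h | h
  · rw [← h]
    norm_num
  · nlinarith [sq_nonneg (1 - s), mul_pos h (sub_pos.2 hc)]

lemma ma_cos_bounds {s θ : ℝ} (h0 : 0 < θ) (h1 : θ < Real.pi) (hs0 : 0 ≤ s) (hs1 : s < 1) :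
    -1 < ((1 + s ^ 2) * Real.cos θ - 2 * s) / (1 + s ^ 2 - 2 * s * Real.cos θ) ∧
    ((1 + s ^ 2) * Real.cos θ - 2 * s) / (1 + s ^ 2 - 2 * s * Real.cos θ) < 1 := by
  have hD := den_pos h0 h1 hs0
  have hc : Real.cos θ < 1 := by
    have := Real.cos_lt_cos_of_nonneg_of_le_pi le_rfl h1.le h0
    rwa [Real.cos_zero] at this
  have hc' : -1 < Real.cos θ := by
    have := Real.cos_lt_cos_of_nonneg_of_le_pi h0.le le_rfl h1
    rwa [Real.cos_pi] at this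
  constructor
  · rw [lt_div_iff₀ hD]
    have h2 : 0 < (1 - s) ^ 2 * (1 + Real.cos θ) :=
      mul_pos (pow_pos (by linarith) 2) (by linarith)
    linarith [h2]
  · rw [div_lt_iff₀ hD]
    have h2 : 0 < (1 + s) ^ 2 * (1 - Real.cos θ) :=
      mul_pos (pow_pos (by linarith) 2) (by linarith)
    linarith [h2]

lemma cos_ma {s θ : ℝ} (h0 : 0 < θ) (h1 : θ < Real.pi) (hs0 : 0 ≤ s) (hs1 : s < 1) :
    Real.cos (ma s θ) =
      ((1 + s ^ 2) * Real.cos θ - 2 * s) / (1 + s ^ 2 - 2 * s * Real.cos θ) := by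
  have h := ma_cos_bounds h0 h1 hs0 hs1
  exact Real.cos_arccos h.1.le h.2.le

lemma ma_mem {s θ : ℝ} (h0 : 0 < θ) (h1 : θ < Real.pi) (hs0 : 0 ≤ s) (hs1 : s < 1) :
    0 < ma s θ ∧ ma s θ < Real.pi := by
  have h := ma_cos_bounds h0 h1 hs0 hs1
  constructor
  · exact Real.arccos_pos.2 h.2
  · exact Real.arccos_lt_pi.2 h.1

lemma sin_ma {s θ : ℝ} (h0 : 0 < θ) (h1 : θ < Real.pi) (hs0 : 0 ≤ s) (hs1 : s < 1) :
    Real.sin (ma s θ) = (1 - s ^ 2) * Real.sin θ / (1 + s ^ 2 - 2 * s * Real.cos θ) := by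
  have hD := den_pos h0 h1 hs0
  have hm := ma_mem h0 h1 hs0 hs1
  have hp : 0 < Real.sin (ma s θ) := Real.sin_pos_of_pos_of_lt_pi hm.1 hm.2
  have hq : 0 < Real.sin θ := Real.sin_pos_of_pos_of_lt_pi h0 h1
  have h2 : 0 < (1 - s ^ 2) * Real.sin θ / (1 + s ^ 2 - 2 * s * Real.cos θ) :=
    div_pos (mul_pos (by nlinarith) hq) hD
  have h3 : Real.sin (ma s θ) ^ 2 =
      ((1 - s ^ 2) * Real.sin θ / (1 + s ^ 2 - 2 * s * Real.cos θ)) ^ 2 := by
    rw [Real.sin_sq, cos_ma h0 h1 hs0 hs1, div_pow, div_pow, mul_pow, Real.sin_sq,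
      eq_div_iff (pow_pos hD 2).ne', sub_mul, div_mul_cancel₀ _ (pow_pos hD 2).ne']
    ring
  exact (pow_left_inj₀ hp.le h2.le two_ne_zero).1 h3

lemma le_ma {s θ : ℝ} (h0 : 0 < θ) (h1 : θ < Real.pi) (hs0 : 0 ≤ s) (hs1 : s < 1) :
    θ ≤ ma s θ := by
  have hD := den_pos h0 h1 hs0
  have hm := ma_mem h0 h1 hs0 hs1
  by_contra hlt
  push Not at hlt
  have h2 := Real.cos_lt_cos_of_nonneg_of_le_pi hm.1.le h1.le hlt
  rw [cos_ma h0 h1 hs0 hs1, lt_div_iff₀ hD] at h2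
  have h3 := Real.sin_sq_add_cos_sq θ
  have h4 : 0 ≤ s * Real.sin θ ^ 2 := mul_nonneg hs0 (sq_nonneg _)
  nlinarith [h2, h3, h4]

lemma ma_zero {θ : ℝ} (h0 : 0 < θ) (h1 : θ < Real.pi) : ma 0 θ = θ := by
  unfold ma
  have e : ((1 + (0 : ℝ) ^ 2) * Real.cos θ - 2 * 0) / (1 + 0 ^ 2 - 2 * 0 * Real.cos θ) =
      Real.cos θ := by
    norm_num
  rw [e]
  exact Real.arccos_cos h0.le h1.le

lemma ma_tendsto {θ : ℝ} (h0 : 0 < θ) (h1 : θ < Real.pi) :
    Tendsto (fun s => ma s θ) (nhdsWithin 0 (Ioi 0)) (nhds θ) := by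
  have hc : ContinuousAt (fun s => ma s θ) 0 := by
    unfold ma
    apply Real.continuous_arccos.continuousAt.comp
    apply ContinuousAt.div
    · fun_prop
    · fun_prop
    · norm_num
  have h2 := hc.tendsto
  simp only [ma_zero h0 h1] at h2
  exact h2.mono_left nhdsWithin_le_nhds

lemma mf_eq {s θ : ℝ} (h0 : 0 < θ) (h1 : θ < Real.pi) (hs0 : 0 ≤ s) (hs1 : s < 1) :
    mf (Real.cos θ) s = C (1 + s ^ 2 - 2 * s * Real.cos θ) *
      (X ^ 2 - C (2 * Real.cos (ma s θ)) * X + 1) := by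
  have hD := den_pos h0 h1 hs0
  have e : C (2 * ((1 + s ^ 2) * Real.cos θ - 2 * s)) =
      C (1 + s ^ 2 - 2 * s * Real.cos θ) * C (2 * Real.cos (ma s θ)) := by
    rw [← C_mul]
    congr 1
    rw [cos_ma h0 h1 hs0 hs1]
    field_simp
  unfold mf
  rw [e]
  ring

omit [DecidableEq ι] in
lemma MP_eq_QP (a : ι → ℝ) (A : Finset ι) (ha : ∀ k ∈ A, 0 < a k ∧ a k < Real.pi) {s : ℝ}
    (hs0 : 0 ≤ s) (hs1 : s < 1) :
    MP (fun k => Real.cos (a k)) A s =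
      C (∏ k ∈ A, (1 + s ^ 2 - 2 * s * Real.cos (a k))) *
        QP (fun k => Real.cos (ma s (a k))) A := by
  unfold MP QP
  rw [map_prod, ← Finset.prod_mul_distrib]
  apply Finset.prod_congr rfl
  intro k hk
  exact mf_eq (ha k hk).1 (ha k hk).2 hs0 hs1

/-- The coefficient of the derivative of the rotated polynomial. -/
noncomputable def wv (a : ι → ℝ) (A : Finset ι) (i : ℕ) : ℝ :=
  ∑ k ∈ A, 2 * Real.sin (a k) * (QP (fun k => Real.cos (a k)) (A.erase k)).coeff i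

/-- The transformed sum. -/
noncomputable def wt (a : ι → ℝ) (A : Finset ι) (i : ℕ) (s : ℝ) : ℝ :=
  ∑ k ∈ A, 2 * Real.sin (a k) * (MP (fun k => Real.cos (a k)) (A.erase k) s).coeff i

lemma wt_zero (a : ι → ℝ) (A : Finset ι) (i : ℕ) : wt a A i 0 = wv a A i := by
  unfold wt wv
  simp only [MP_zero]

lemma wt_continuous (a : ι → ℝ) (A : Finset ι) (i : ℕ) : Continuous (wt a A i) := by
  unfold wt
  apply continuous_finsetSum
  intro k _
  exact continuous_const.mul (MP_coeff_continuous _ _ _)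

lemma wt_one_pos (a : ι → ℝ) (A : Finset ι) (ha : ∀ k ∈ A, 0 < a k ∧ a k < Real.pi) (i : ℕ)
    (hi : i + 1 < 2 * A.card) : 0 < wt a A i 1 := by
  have hne : A.Nonempty := by
    apply Finset.card_pos.1
    omega
  unfold wt
  apply Finset.sum_pos _ hne
  intro k hk
  have hs : 0 < Real.sin (a k) := Real.sin_pos_of_pos_of_lt_pi (ha k hk).1 (ha k hk).2
  apply mul_pos (by positivity)
  apply MP_one_coeff_pos
  · intro i hi
    have h := ha i (Finset.mem_of_mem_erase hi)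
    have := Real.cos_lt_cos_of_nonneg_of_le_pi le_rfl h.2.le h.1
    rwa [Real.cos_zero] at this
  · rw [Finset.card_erase_of_mem hk]
    omega

lemma wt_eq (a : ι → ℝ) (A : Finset ι) (ha : ∀ k ∈ A, 0 < a k ∧ a k < Real.pi) {s : ℝ}
    (hs0 : 0 ≤ s) (hs1 : s < 1) (i : ℕ) :
    (1 - s ^ 2) * wt a A i s =
      (∏ k ∈ A, (1 + s ^ 2 - 2 * s * Real.cos (a k))) * wv (fun k => ma s (a k)) A i := by
  unfold wt wv
  rw [Finset.mul_sum, Finset.mul_sum]
  apply Finset.sum_congr rfl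
  intro k hk
  have hD := den_pos (ha k hk).1 (ha k hk).2 hs0
  have ha' : ∀ j ∈ A.erase k, 0 < a j ∧ a j < Real.pi :=
    fun j hj => ha j (Finset.mem_of_mem_erase hj)
  rw [MP_eq_QP a (A.erase k) ha' hs0 hs1, coeff_C_mul, sin_ma (ha k hk).1 (ha k hk).2 hs0 hs1,
    ← Finset.mul_prod_erase A (fun k => 1 + s ^ 2 - 2 * s * Real.cos (a k)) hk]
  have hD' := hD.ne'
  generalize (1 + s ^ 2 - 2 * s * Real.cos (a k)) = D at hD'
  field_simp

end Pool.Agent.MP_fe2d2a_anP
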