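import Mathlib
import Pool.Agent.Lib.MP_fe2d2a_anNE.Block
import Pool.Agent.Lib.MP_fe2d2a_anP.Angle

/-!
The reduction: if, on a class of configurations closed under increasing the angles, nonnegative
derivatives together with positive coefficients force positive derivatives, then the coefficients
of the rotated polynomial are nondecreasing.
-/

set_option autoImplicit false

open Finset Polynomial Filter Set

namespace Pool.Agent.MP_fe2d2a_anP

open Pool.Agent.MP_fe2d2a_anEC Pool.Agent.MP_fe2d2a_anR Pool.Agent.MP_fe2d2a_anNE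

variable {ι : Type*} [DecidableEq ι]

/-- Nonnegative derivatives and positive coefficients force positive derivatives. -/
def Lp (a : ι → ℝ) (A : Finset ι) : Prop :=
  (∀ j ≤ 2 * A.card, 0 < (QP (fun k => Real.cos (a k)) A).coeff j) →
  (∀ i, i + 1 < 2 * A.card → 0 ≤ wv a A i) → ∀ i, i + 1 < 2 * A.card → 0 < wv a A i

/-- Positivity of all derivatives along the path. -/
theorem wv_pos_of_path (a : ι → ℝ) (A : Finset ι) (ha : ∀ k ∈ A, 0 < a k ∧ a k < Real.pi)
    (hc : ∀ j ≤ 2 * A.card, 0 < (QP (fun k => Real.cos (a k)) A).coeff j)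
    (hL : ∀ s, 0 ≤ s → s < 1 → Lp (fun k => ma s (a k)) A) (i : ℕ)
    (hi : i + 1 < 2 * A.card) : 0 < wv a A i := by
  set J : Finset ℕ := range (2 * A.card - 1) with hJ
  have hJm : ∀ i, i ∈ J ↔ i + 1 < 2 * A.card := by
    intro i
    rw [hJ, Finset.mem_range]
    omega
  set S : Set ℝ := ⋃ i ∈ J, (Icc (0 : ℝ) 1 ∩ {s | wt a A i s ≤ 0}) with hS
  have hSc : IsCompact S := by
    apply Finset.isCompact_biUnion
    intro i _
    exact isCompact_Icc.inter_right (isClosed_le (wt_continuous a A i) continuous_const)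
  by_contra hneg
  push Not at hneg
  have hSn : S.Nonempty := by
    refine ⟨0, ?_⟩
    rw [hS, Set.mem_iUnion₂]
    refine ⟨i, (hJm i).2 hi, ⟨le_rfl, zero_le_one⟩, ?_⟩
    change wt a A i 0 ≤ 0
    rw [wt_zero]
    exact hneg
  obtain ⟨s, hs, hmax⟩ := hSc.exists_isGreatest hSn
  have hs' := hs
  rw [hS, Set.mem_iUnion₂] at hs'
  obtain ⟨j, hjJ, ⟨hs0, hs1⟩, hj0⟩ := hs'
  have hj0 : wt a A j s ≤ 0 := hj0
  have hs1' : s < 1 := by
    rcases hs1.lt_or_eq with h | h
    · exact h
    · exfalso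
      rw [h] at hj0
      have := wt_one_pos a A ha j ((hJm j).1 hjJ)
      linarith
  have habove : ∀ u, s < u → u ≤ 1 → ∀ i, i + 1 < 2 * A.card → 0 < wt a A i u := by
    intro u hu hu1 i hi
    by_contra h
    push Not at h
    have hmem : u ∈ S := by
      rw [hS, Set.mem_iUnion₂]
      exact ⟨i, (hJm i).2 hi, ⟨hs0.trans hu.le, hu1⟩, h⟩
    have := hmax hmem
    linarith
  have hge : ∀ i, i + 1 < 2 * A.card → 0 ≤ wt a A i s := by
    intro i hi
    have h1 : Tendsto (wt a A i) (nhdsWithin s (Ioi s)) (nhds (wt a A i s)) :=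
      (wt_continuous a A i).continuousAt.tendsto.mono_left nhdsWithin_le_nhds
    apply ge_of_tendsto h1
    have h2 : ∀ᶠ u in nhdsWithin s (Ioi s), u < 1 :=
      nhdsWithin_le_nhds (gt_mem_nhds hs1')
    filter_upwards [h2, self_mem_nhdsWithin] with u hu1 hu2
    exact (habove u hu2 hu1.le i hi).le
  have hprod : 0 < ∏ k ∈ A, (1 + s ^ 2 - 2 * s * Real.cos (a k)) :=
    Finset.prod_pos (fun k hk => den_pos (ha k hk).1 (ha k hk).2 hs0)
  have h1s : 0 < 1 - s ^ 2 := by nlinarith
  have hcoef : ∀ j ≤ 2 * A.card, 0 < (QP (fun k => Real.cos (ma s (a k))) A).coeff j := by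
    intro j hj
    have h1 : 0 < (MP (fun k => Real.cos (a k)) A s).coeff j := by
      rcases hs0.eq_or_lt with h | h
      · rw [← h, MP_zero]
        exact hc j hj
      · apply MP_coeff_pos _ _ h _ j hj
        intro j
        by_cases hj : j ≤ 2 * A.card
        · exact (hc j hj).le
        · apply le_of_eq
          symm
          apply coeff_eq_zero_of_natDegree_lt
          rw [QP_natDegree]
          omega
    rw [MP_eq_QP a A ha hs0 hs1', coeff_C_mul] at h1
    exact (mul_pos_iff_of_pos_left hprod).1 h1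
  have hw : ∀ i, i + 1 < 2 * A.card → 0 ≤ wv (fun k => ma s (a k)) A i := by
    intro i hi
    have h1 := wt_eq a A ha hs0 hs1' i
    have h2 : 0 ≤ (∏ k ∈ A, (1 + s ^ 2 - 2 * s * Real.cos (a k))) *
        wv (fun k => ma s (a k)) A i := by
      rw [← h1]
      exact mul_nonneg h1s.le (hge i hi)
    exact nonneg_of_mul_nonneg_right h2 hprod
  have hfin := hL s hs0 hs1' hcoef hw j ((hJm j).1 hjJ)
  have h1 := wt_eq a A ha hs0 hs1' j
  have h2 : 0 < (∏ k ∈ A, (1 + s ^ 2 - 2 * s * Real.cos (a k))) *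
      wv (fun k => ma s (a k)) A j := mul_pos hprod hfin
  rw [← h1] at h2
  have h3 := (mul_pos_iff_of_pos_left h1s).1 h2
  linarith

/-- The version for a class closed under increasing the angles. -/
theorem wv_pos_of_class (a : ι → ℝ) (A : Finset ι) (ha : ∀ k ∈ A, 0 < a k ∧ a k < Real.pi)
    (hc : ∀ j ≤ 2 * A.card, 0 < (QP (fun k => Real.cos (a k)) A).coeff j)
    (hL : ∀ b : ι → ℝ, (∀ k ∈ A, a k ≤ b k ∧ b k < Real.pi) → Lp b A) (i : ℕ)
    (hi : i + 1 < 2 * A.card) : 0 < wv a A i := by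
  apply wv_pos_of_path a A ha hc _ i hi
  intro s hs0 hs1
  apply hL
  intro k hk
  exact ⟨le_ma (ha k hk).1 (ha k hk).2 hs0 hs1, (ma_mem (ha k hk).1 (ha k hk).2 hs0 hs1).2⟩

lemma wv_shift (a : ι → ℝ) (A : Finset ι) (t : ℝ) (i : ℕ) :
    wv (fun k => t + a k) A i = ∑ k ∈ A, 2 * Real.sin (t + a k) *
      (X * QP (fun k => Real.cos (t + a k)) (A.erase k)).coeff (i + 1) := by
  unfold wv
  simp only [coeff_X_mul]

/-- Strictly positive coefficients: they stay positive and are nondecreasing as long as no angle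
reaches `π`. -/
theorem mono_of_class_strict (a : ι → ℝ) (A : Finset ι)
    (ha : ∀ k ∈ A, 0 < a k ∧ a k < Real.pi)
    (hc : ∀ j ≤ 2 * A.card, 0 < (QP (fun k => Real.cos (a k)) A).coeff j)
    (hL : ∀ b : ι → ℝ, (∀ k ∈ A, a k ≤ b k ∧ b k < Real.pi) → Lp b A)
    {ε : ℝ} (hε : ∀ k ∈ A, a k + ε < Real.pi) (j : ℕ) :
    MonotoneOn (fun t : ℝ => (RP a A t).coeff j) (Icc 0 ε) := by
  set J : Finset ℕ := range (2 * A.card + 1) with hJ
  have hJm : ∀ i, i ∈ J ↔ i ≤ 2 * A.card := by
    intro i
    rw [hJ, Finset.mem_range]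
    omega
  set c : ℕ → ℝ → ℝ := fun j t => (QP (fun k => Real.cos (t + a k)) A).coeff j with hcdef
  have hcc : ∀ j, Continuous (c j) := fun j => coeff_continuous a A j
  -- derivative nonnegative where the coefficients are positive
  have hder : ∀ t, 0 ≤ t → t ≤ ε → (∀ j ≤ 2 * A.card, 0 < c j t) → ∀ j, 0 ≤ deriv (c j) t := by
    intro t ht0 ht1 hpos j
    have hd := coeff_deriv a A j t
    have hb : ∀ k ∈ A, 0 < t + a k ∧ t + a k < Real.pi := by
      intro k hk
      exact ⟨by linarith [(ha k hk).1], by linarith [hε k hk]⟩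
    have hd' : deriv (c j) t = ∑ k ∈ A, 2 * Real.sin (t + a k) *
        (X * QP (fun k => Real.cos (t + a k)) (A.erase k)).coeff j := hd.deriv
    rcases j with _ | i
    · rw [hd']
      simp only [mul_coeff_zero, coeff_X_zero, zero_mul, mul_zero, Finset.sum_const_zero, le_refl]
    · rw [hd', ← wv_shift]
      by_cases hi : i + 1 < 2 * A.card
      · apply le_of_lt
        apply wv_pos_of_class (fun k => t + a k) A hb hpos _ i hi
        intro b hbk
        apply hL
        intro k hk
        exact ⟨by linarith [(hbk k hk).1], (hbk k hk).2⟩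
      · apply le_of_eq
        symm
        unfold wv
        apply Finset.sum_eq_zero
        intro k hk
        rw [coeff_eq_zero_of_natDegree_lt, mul_zero]
        rw [QP_natDegree, Finset.card_erase_of_mem hk]
        have : 0 < A.card := Finset.card_pos.2 ⟨k, hk⟩
        omega
  -- all coefficients stay positive
  have hpos : ∀ t ∈ Icc (0 : ℝ) ε, ∀ j ≤ 2 * A.card, 0 < c j t := by
    by_contra hcon
    push Not at hcon
    obtain ⟨t1, ht1, j1, hj1, hneg⟩ := hcon
    set S : Set ℝ := ⋃ i ∈ J, (Icc (0 : ℝ) ε ∩ {t | c i t ≤ 0}) with hS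
    have hSc : IsCompact S := by
      apply Finset.isCompact_biUnion
      intro i _
      exact isCompact_Icc.inter_right (isClosed_le (hcc i) continuous_const)
    have hSn : S.Nonempty := by
      refine ⟨t1, ?_⟩
      rw [hS, Set.mem_iUnion₂]
      exact ⟨j1, (hJm j1).2 hj1, ht1, hneg⟩
    obtain ⟨t, ht, hmin⟩ := hSc.exists_isLeast hSn
    rw [hS, Set.mem_iUnion₂] at ht
    obtain ⟨i, hiJ, ⟨ht0, htε⟩, hi0⟩ := ht
    have hi0 : c i t ≤ 0 := hi0
    have hc0 : 0 < c i 0 := by
      rw [hcdef]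
      simp only [zero_add]
      exact hc i ((hJm i).1 hiJ)
    have hbelow : ∀ u, 0 ≤ u → u < t → ∀ j ≤ 2 * A.card, 0 < c j u := by
      intro u hu hut j hj
      by_contra h
      push Not at h
      have hmem : u ∈ S := by
        rw [hS, Set.mem_iUnion₂]
        exact ⟨j, (hJm j).2 hj, ⟨hu, hut.le.trans htε⟩, h⟩
      have := hmin hmem
      linarith
    have hmono : MonotoneOn (c i) (Icc 0 t) := by
      apply monotoneOn_of_deriv_nonneg (convex_Icc 0 t)
      · exact (hcc i).continuousOn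
      · exact fun u _ => (coeff_deriv a A i u).differentiableAt.differentiableWithinAt
      · intro u hu
        rw [interior_Icc] at hu
        exact hder u hu.1.le (hu.2.le.trans htε) (hbelow u hu.1.le hu.2) i
    have := hmono ⟨le_rfl, ht0⟩ ⟨ht0, le_rfl⟩ ht0
    linarith
  have hfin : MonotoneOn (c j) (Icc 0 ε) := by
    apply monotoneOn_of_deriv_nonneg (convex_Icc 0 ε)
    · exact (hcc j).continuousOn
    · exact fun u _ => (coeff_deriv a A j u).differentiableAt.differentiableWithinAt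
    · intro u hu
      rw [interior_Icc] at hu
      exact hder u hu.1.le hu.2.le (hpos u ⟨hu.1.le, hu.2.le⟩) j
  have e : (fun t : ℝ => (RP a A t).coeff j) = c j := by
    funext t
    rw [RP_eq]
  rw [e]
  exact hfin

lemma QP_coeff_tendsto {α : Type*} {l : Filter α} (u : α → ι → ℝ) (v : ι → ℝ) (A : Finset ι)
    (h : ∀ k ∈ A, Tendsto (fun x => u x k) l (nhds (v k))) :
    ∀ j, Tendsto (fun x => (QP (u x) A).coeff j) l (nhds ((QP v A).coeff j)) := by
  induction A using Finset.induction_on with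
  | empty =>
    intro j
    simp only [QP, Finset.prod_empty]
    exact tendsto_const_nhds
  | insert k A hk ih =>
    have ih' := ih (fun i hi => h i (Finset.mem_insert_of_mem hi))
    have hk' := h k (Finset.mem_insert_self k A)
    have hX : ∀ {Q : α → ℝ[X]} {R : ℝ[X]},
        (∀ j, Tendsto (fun x => (Q x).coeff j) l (nhds (R.coeff j))) →
        ∀ j, Tendsto (fun x => (X * Q x).coeff j) l (nhds ((X * R).coeff j)) := by
      intro Q R hQ j
      rcases j with _ | j
      · simp only [mul_coeff_zero, coeff_X_zero, zero_mul]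
        exact tendsto_const_nhds
      · simp only [coeff_X_mul]
        exact hQ j
    intro j
    have e : ∀ w : ι → ℝ, (QP w (insert k A)).coeff j =
        (X * (X * QP w A)).coeff j + (QP w A).coeff j - 2 * w k * (X * QP w A).coeff j := by
      intro w
      have e1 : QP w (insert k A) = (X ^ 2 - C (2 * w k) * X + 1) * QP w A := by
        unfold QP
        rw [Finset.prod_insert hk]
      rw [e1, mul_factor_coeff]
      congr 3
      ring
    simp only [e]
    exact ((hX (hX ih') j).add (ih' j)).sub ((hk'.const_mul 2).mul (hX ih' j))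

/-- Nonnegative coefficients: they are nondecreasing as long as no angle reaches `π`. -/
theorem mono_of_class (a : ι → ℝ) (A : Finset ι)
    (ha : ∀ k ∈ A, 0 < a k ∧ a k < Real.pi)
    (hc : ∀ j, 0 ≤ (QP (fun k => Real.cos (a k)) A).coeff j)
    (hL : ∀ b : ι → ℝ, (∀ k ∈ A, a k ≤ b k ∧ b k < Real.pi) → Lp b A)
    {ε : ℝ} (hε : ∀ k ∈ A, a k + ε < Real.pi) (j : ℕ) :
    MonotoneOn (fun t : ℝ => (RP a A t).coeff j) (Icc 0 ε) := by
  intro x hx y hy hxy
  have hlim : ∀ t : ℝ, Tendsto (fun s => (RP (fun k => ma s (a k)) A t).coeff j)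
      (nhdsWithin 0 (Ioi 0)) (nhds ((RP a A t).coeff j)) := by
    intro t
    simp only [RP_eq]
    apply QP_coeff_tendsto
    intro k hk
    exact (Real.continuous_cos.tendsto _).comp
      ((ma_tendsto (ha k hk).1 (ha k hk).2).const_add t)
  apply le_of_tendsto_of_tendsto (hlim x) (hlim y)
  have h1 : ∀ᶠ s : ℝ in nhdsWithin 0 (Ioi 0), s < 1 :=
    nhdsWithin_le_nhds (gt_mem_nhds one_pos)
  have h2 : ∀ᶠ s : ℝ in nhdsWithin 0 (Ioi 0), ∀ k ∈ A, ma s (a k) < Real.pi - ε := by
    rw [Filter.eventually_all_finset]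
    intro k hk
    exact (ma_tendsto (ha k hk).1 (ha k hk).2).eventually
      (gt_mem_nhds (by linarith [hε k hk]))
  filter_upwards [h1, h2, self_mem_nhdsWithin] with s hs1 hs2 hs0
  have hs0 : 0 < s := hs0
  have hb : ∀ k ∈ A, 0 < ma s (a k) ∧ ma s (a k) < Real.pi :=
    fun k hk => ma_mem (ha k hk).1 (ha k hk).2 hs0.le hs1
  have hprod : 0 < ∏ k ∈ A, (1 + s ^ 2 - 2 * s * Real.cos (a k)) :=
    Finset.prod_pos (fun k hk => den_pos (ha k hk).1 (ha k hk).2 hs0.le)
  have hcb : ∀ j ≤ 2 * A.card, 0 < (QP (fun k => Real.cos (ma s (a k))) A).coeff j := by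
    intro j hj
    have h3 := MP_coeff_pos _ _ hs0 hc j hj
    rw [MP_eq_QP a A ha hs0.le hs1, coeff_C_mul] at h3
    exact (mul_pos_iff_of_pos_left hprod).1 h3
  have hLb : ∀ b : ι → ℝ, (∀ k ∈ A, ma s (a k) ≤ b k ∧ b k < Real.pi) → Lp b A := by
    intro b hbk
    apply hL
    intro k hk
    exact ⟨(le_ma (ha k hk).1 (ha k hk).2 hs0.le hs1).trans (hbk k hk).1, (hbk k hk).2⟩
  exact mono_of_class_strict (fun k => ma s (a k)) A hb hcb hLb
    (fun k hk => by linarith [hs2 k hk]) j hx hy hxy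

/-- The block lemma for a class closed under increasing the angles. -/
theorem block_of_class (a : ι → ℝ) (A : Finset ι)
    (ha : ∀ k ∈ A, 0 < a k ∧ a k < Real.pi)
    (hc : ∀ j, 0 ≤ (RP a A 0).coeff j)
    (hL : ∀ b : ι → ℝ, (∀ k ∈ A, a k ≤ b k ∧ b k < Real.pi) → Lp b A) :
    ∃ ε > (0 : ℝ), ∀ j, MonotoneOn (fun t : ℝ => (RP a A t).coeff j) (Icc 0 ε) := by
  have h0 : ∃ ε > (0 : ℝ), ∀ k ∈ A, a k + ε < Real.pi := by
    clear hc hL
    induction A using Finset.induction_on with
    | empty => exact ⟨1, one_pos, fun k hk => absurd hk (Finset.notMem_empty k)⟩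
    | insert i A hi ih =>
      obtain ⟨ε, hε, h⟩ := ih (fun k hk => ha k (Finset.mem_insert_of_mem hk))
      have h1 := (ha i (Finset.mem_insert_self i A)).2
      refine ⟨min ε ((Real.pi - a i) / 2), lt_min hε (by linarith), fun k hk => ?_⟩
      rcases Finset.mem_insert.1 hk with h2 | h2
      · rw [h2]
        have := min_le_right ε ((Real.pi - a i) / 2)
        linarith
      · have := min_le_left ε ((Real.pi - a i) / 2)
        linarith [h k h2]
  obtain ⟨ε, hε, h⟩ := h0
  refine ⟨ε, hε, fun j => mono_of_class a A ha ?_ hL h j⟩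
  intro j
  have := hc j
  rw [RP_eq] at this
  simpa only [zero_add] using this

end Pool.Agent.MP_fe2d2a_anP
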