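import Mathlib
import Pool.Agent.Results.MP_fe2d2a_an.EvenPart
import Pool.Agent.Lib.MP_fe2d2a_anP.Path

/-!
It is enough to treat the derivatives of index between `2` and `n - 1`.
-/

set_option autoImplicit false

open Finset Polynomial Filter Set

namespace Pool.Agent.MP_fe2d2a_anP

open Pool.Agent.MP_fe2d2a_anEC Pool.Agent.MP_fe2d2a_anR Pool.Agent.MP_fe2d2a_anNE

variable {ι : Type*} [DecidableEq ι]

lemma wv_zero_pos (a : ι → ℝ) (A : Finset ι) (ha : ∀ k ∈ A, 0 < a k ∧ a k < Real.pi)
    (hA : 0 < A.card) : 0 < wv a A 0 := by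
  unfold wv
  apply Finset.sum_pos _ (Finset.card_pos.1 hA)
  intro k hk
  rw [QP_coeff_zero]
  have := Real.sin_pos_of_pos_of_lt_pi (ha k hk).1 (ha k hk).2
  positivity

lemma fac_reverse (u : ℝ) : (X ^ 2 - C (2 * u) * X + 1 : ℝ[X]).reverse =
    X ^ 2 - C (2 * u) * X + 1 := by
  have hd : (X ^ 2 - C (2 * u) * X + 1 : ℝ[X]).natDegree = 2 := by compute_degree!
  ext n
  rw [coeff_reverse, hd]
  rcases le_or_gt n 2 with h | h
  · rw [revAt_le h]
    interval_cases n
    · simp [coeff_X, coeff_one]
    · simp [coeff_one]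
    · simp [coeff_X, coeff_one]
  · rw [revAt_eq_self_of_lt h]

lemma QP_reverse (u : ι → ℝ) (A : Finset ι) : (QP u A).reverse = QP u A := by
  induction A using Finset.induction_on with
  | empty =>
    simp only [QP, Finset.prod_empty]
    rw [← C_1, reverse_C]
  | insert k A hk ih =>
    have e : QP u (insert k A) = (X ^ 2 - C (2 * u k) * X + 1) * QP u A := by
      unfold QP
      rw [Finset.prod_insert hk]
    rw [e, reverse_mul_of_domain, ih, fac_reverse]

lemma QP_symm (u : ι → ℝ) (A : Finset ι) {j : ℕ} (hj : j ≤ 2 * A.card) :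
    (QP u A).coeff (2 * A.card - j) = (QP u A).coeff j := by
  have h := congrArg (fun p => p.coeff j) (QP_reverse u A)
  simp only [coeff_reverse, QP_natDegree, revAt_le hj] at h
  exact h

lemma wv_symm (a : ι → ℝ) (A : Finset ι) {i : ℕ} (hi : i + 1 < 2 * A.card) :
    wv a A (2 * A.card - 2 - i) = wv a A i := by
  unfold wv
  apply Finset.sum_congr rfl
  intro k hk
  have hc := Finset.card_erase_of_mem hk
  have e : 2 * A.card - 2 - i = 2 * (A.erase k).card - i := by
    rw [hc]
    omega
  rw [e, QP_symm]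
  rw [hc]
  omega

lemma QP_coeff_one (u : ι → ℝ) (A : Finset ι) : (QP u A).coeff 1 = -2 * ∑ k ∈ A, u k := by
  induction A using Finset.induction_on with
  | empty =>
    simp [QP, coeff_one]
  | insert k A hk ih =>
    have e : QP u (insert k A) = (X ^ 2 - C (2 * u k) * X + 1) * QP u A := by
      unfold QP
      rw [Finset.prod_insert hk]
    rw [e, mul_factor_coeff, ih, Finset.sum_insert hk]
    have e1 : (X ^ 2 * QP u A).coeff 1 = 0 := by
      have : X ^ 2 * QP u A = X * (X * QP u A) := by ring
      rw [this, coeff_X_mul, mul_coeff_zero, coeff_X_zero, zero_mul]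
    have e2 : (X * QP u A).coeff 1 = 1 := by
      have h := coeff_X_mul (QP u A) 0
      rw [QP_coeff_zero] at h
      exact h
    rw [e1, e2]
    ring

lemma wv_one (a : ι → ℝ) (A : Finset ι) :
    wv a A 1 = -4 * ((∑ k ∈ A, Real.sin (a k)) * (∑ k ∈ A, Real.cos (a k)) -
      ∑ k ∈ A, Real.sin (a k) * Real.cos (a k)) := by
  unfold wv
  simp only [QP_coeff_one]
  rw [Finset.sum_mul, ← Finset.sum_sub_distrib, Finset.mul_sum]
  apply Finset.sum_congr rfl
  intro k hk
  have h := Finset.add_sum_erase A (fun k => Real.cos (a k)) hk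
  have h' : ∑ x ∈ A.erase k, Real.cos (a x) = ∑ x ∈ A, Real.cos (a x) - Real.cos (a k) := by
    linarith
  rw [h']
  ring

omit [DecidableEq ι] in
lemma RP_fin (a : ι → ℝ) (A : Finset ι) (t : ℝ) :
    RP a A t = ∏ i : Fin A.card, ((X : ℝ[X]) ^ 2 -
      C (2 * Real.cos (t + a (A.equivFin.symm i : ι))) * X + 1) := by
  unfold RP
  rw [← Finset.prod_coe_sort]
  exact (Equiv.prod_comp A.equivFin.symm (fun k : A => ((X : ℝ[X]) ^ 2 -
    C (2 * Real.cos (t + a (k : ι))) * X + 1))).symm

/-- The derivative of index `1` is nonnegative. -/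
lemma wv_one_nonneg (a : ι → ℝ) (A : Finset ι) (ha : ∀ k ∈ A, 0 < a k ∧ a k < Real.pi)
    (hc : ∀ j, 0 ≤ (QP (fun k => Real.cos (a k)) A).coeff j) : 0 ≤ wv a A 1 := by
  have hx : ∀ x : ℝ, 0 < x → (RP a A 0).eval (-x) ≤ (RP a A 0).eval x := by
    intro x hx
    rw [eval_eq_sum_range, eval_eq_sum_range]
    apply Finset.sum_le_sum
    intro j _
    have hj : 0 ≤ (RP a A 0).coeff j := by
      rw [RP_eq]
      simpa only [zero_add] using hc j
    apply mul_le_mul_of_nonneg_left _ hj
    calc (-x) ^ j ≤ |(-x) ^ j| := le_abs_self _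
      _ = x ^ j := by rw [abs_pow, abs_neg, abs_of_pos hx]
  obtain ⟨ε, hε, h1, -, -⟩ := Pool.Agent.Results.MP_fe2d2a_an.EvenPart.result A.card
    (fun i => a (A.equivFin.symm i : ι)) (fun i => ha _ (A.equivFin.symm i).2) (by
      intro x h0
      have h2 := hx x h0
      rw [RP_fin] at h2
      simpa only [zero_add] using h2)
  have hm := h1 2 (Or.inl le_rfl)
  have hm' : MonotoneOn (fun t : ℝ => (QP (fun k => Real.cos (t + a k)) A).coeff 2)
      (Icc 0 ε) := by
    have e : (fun t : ℝ => (QP (fun k => Real.cos (t + a k)) A).coeff 2) = fun t : ℝ =>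
        (∏ i : Fin A.card, ((X : ℝ[X]) ^ 2 -
      C (2 * Real.cos (t + a (A.equivFin.symm i : ι))) * X + 1)).coeff 2 := by
      funext t
      rw [← RP_eq, RP_fin]
    rw [e]
    exact hm
  have hd := coeff_deriv a A 2 0
  have e2 : ∑ k ∈ A, 2 * Real.sin (0 + a k) *
      (X * QP (fun k => Real.cos (0 + a k)) (A.erase k)).coeff 2 = wv a A 1 := by
    unfold wv
    simp only [zero_add, coeff_X_mul]
  rw [e2, hasDerivAt_iff_tendsto_slope] at hd
  have h3 : Tendsto (slope (fun t : ℝ => (QP (fun k => Real.cos (t + a k)) A).coeff 2) 0)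
      (nhdsWithin 0 (Ioi 0)) (nhds (wv a A 1)) :=
    hd.mono_left (nhdsWithin_mono _ (fun x hx => ne_of_gt hx))
  apply ge_of_tendsto h3
  have h4 : ∀ᶠ t : ℝ in nhdsWithin 0 (Ioi 0), t < ε := nhdsWithin_le_nhds (gt_mem_nhds hε)
  filter_upwards [h4, self_mem_nhdsWithin] with t ht1 ht0
  have ht0 : 0 < t := ht0
  rw [slope_def_field, sub_zero]
  apply div_nonneg _ ht0.le
  rw [sub_nonneg]
  exact hm' ⟨le_rfl, hε.le⟩ ⟨ht0.le, ht1.le⟩ ht0.le

/-- The derivative of index `1` is positive if all coefficients are. -/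
lemma wv_one_pos (a : ι → ℝ) (A : Finset ι) (ha : ∀ k ∈ A, 0 < a k ∧ a k < Real.pi)
    (hc : ∀ j ≤ 2 * A.card, 0 < (QP (fun k => Real.cos (a k)) A).coeff j)
    (hA : 2 ≤ A.card) : 0 < wv a A 1 := by
  by_contra hneg
  push Not at hneg
  have hC : ∑ k ∈ A, Real.cos (a k) < 0 := by
    have := hc 1 (by omega)
    rw [QP_coeff_one] at this
    linarith
  have hs : ∀ k ∈ A, 0 < Real.sin (a k) :=
    fun k hk => Real.sin_pos_of_pos_of_lt_pi (ha k hk).1 (ha k hk).2
  by_cases hall : ∀ k ∈ A, Real.cos (a k) < 0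
  · -- all cosines negative
    have h1 : 0 < wv a A 1 := by
      unfold wv
      have hne : A.Nonempty := Finset.card_pos.1 (by omega)
      apply Finset.sum_pos _ hne
      intro k hk
      rw [QP_coeff_one]
      have hne' : (A.erase k).Nonempty := by
        apply Finset.card_pos.1
        rw [Finset.card_erase_of_mem hk]
        omega
      have h2 : ∑ x ∈ A.erase k, Real.cos (a x) < 0 :=
        Finset.sum_neg (fun x hx => hall x (Finset.mem_of_mem_erase hx)) hne'
      have := hs k hk
      apply mul_pos (by positivity)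
      linarith
    linarith
  · push Not at hall
    obtain ⟨k, hk, hck⟩ := hall
    have hne' : (A.erase k).Nonempty := by
      apply Finset.card_pos.1
      rw [Finset.card_erase_of_mem hk]
      omega
    have hS' : 0 < ∑ x ∈ A.erase k, Real.sin (a x) :=
      Finset.sum_pos (fun x hx => hs x (Finset.mem_of_mem_erase hx)) hne'
    have hC' : ∑ x ∈ A.erase k, Real.cos (a x) < 0 := by
      have h := Finset.add_sum_erase A (fun k => Real.cos (a k)) hk
      linarith
    have hk2 : a k ≤ Real.pi / 2 := by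
      by_contra h
      push Not at h
      have := Real.cos_neg_of_pi_div_two_lt_of_lt h (by linarith [(ha k hk).2, Real.pi_pos])
      linarith
    -- the value after moving one angle
    have hform : ∀ t : ℝ, wv (Function.update a k t) A 1 =
        -4 * ((∑ x ∈ A.erase k, Real.sin (a x)) * (∑ x ∈ A.erase k, Real.cos (a x)) -
          (∑ x ∈ A.erase k, Real.sin (a x) * Real.cos (a x)) +
          (∑ x ∈ A.erase k, Real.sin (a x)) * Real.cos t +
          (∑ x ∈ A.erase k, Real.cos (a x)) * Real.sin t) := by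
      intro t
      have hup : ∀ f : ℝ → ℝ, ∑ x ∈ A, f (Function.update a k t x) =
          f t + ∑ x ∈ A.erase k, f (a x) := by
        intro f
        rw [← Finset.add_sum_erase A _ hk, Function.update_self]
        congr 1
        apply Finset.sum_congr rfl
        intro x hx
        rw [Function.update_of_ne (Finset.ne_of_mem_erase hx)]
      rw [wv_one, hup Real.sin, hup Real.cos, hup (fun y => Real.sin y * Real.cos y)]
      ring
    have hself : wv (Function.update a k (a k)) A 1 ≤ 0 := by
      rw [Function.update_eq_self]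
      exact hneg
    -- small perturbation
    have hev : ∀ᶠ δ : ℝ in nhdsWithin 0 (Ioi 0), ∀ j ∈ range (2 * A.card + 1),
        0 < (QP (fun i => Real.cos (Function.update a k (a k - δ) i)) A).coeff j := by
      rw [Filter.eventually_all_finset]
      intro j hj
      have hj' : j ≤ 2 * A.card := by
        have := Finset.mem_range.1 hj
        omega
      have hT : Tendsto (fun δ : ℝ =>
          (QP (fun i => Real.cos (Function.update a k (a k - δ) i)) A).coeff j)
          (nhdsWithin 0 (Ioi 0)) (nhds ((QP (fun i => Real.cos (a i)) A).coeff j)) := by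
        apply QP_coeff_tendsto
        intro i _
        apply (Real.continuous_cos.tendsto _).comp
        by_cases hik : i = k
        · rw [hik]
          simp only [Function.update_self]
          have h5 : Tendsto (fun δ : ℝ => a k - δ) (nhds 0) (nhds (a k - 0)) :=
            (continuous_const.sub continuous_id).tendsto 0
          rw [sub_zero] at h5
          exact h5.mono_left nhdsWithin_le_nhds
        · simp only [Function.update_of_ne hik]
          exact tendsto_const_nhds
      exact hT.eventually (lt_mem_nhds (hc j hj'))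
    have hev2 : ∀ᶠ δ : ℝ in nhdsWithin 0 (Ioi 0), δ < a k :=
      nhdsWithin_le_nhds (gt_mem_nhds (ha k hk).1)
    have hev3 : ∀ᶠ δ : ℝ in nhdsWithin 0 (Ioi 0), 0 < δ := self_mem_nhdsWithin
    obtain ⟨δ, h1, h2, h3⟩ := (hev.and (hev2.and hev3)).exists
    have hnn : 0 ≤ wv (Function.update a k (a k - δ)) A 1 := by
      apply wv_one_nonneg
      · intro i hi
        by_cases hik : i = k
        · rw [hik, Function.update_self]
          exact ⟨by linarith, by linarith [(ha k hk).2]⟩
        · rw [Function.update_of_ne hik]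
          exact ha i hi
      · intro j
        by_cases hj : j ≤ 2 * A.card
        · exact (h1 j (Finset.mem_range.2 (by omega))).le
        · apply le_of_eq
          symm
          apply coeff_eq_zero_of_natDegree_lt
          rw [QP_natDegree]
          omega
    rw [hform] at hnn hself
    have hcos : Real.cos (a k) < Real.cos (a k - δ) :=
      Real.cos_lt_cos_of_nonneg_of_le_pi (by linarith) (ha k hk).2.le (by linarith)
    have hsin : Real.sin (a k - δ) ≤ Real.sin (a k) :=
      Real.sin_le_sin_of_le_of_le_pi_div_two (by linarith [Real.pi_pos]) hk2 (by linarith)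
    nlinarith [mul_pos hS' (sub_pos.2 hcos), mul_nonneg (neg_pos.2 hC').le (sub_nonneg.2 hsin)]

/-- The middle inequalities. -/
def Mid (a : ι → ℝ) (A : Finset ι) : Prop :=
  (∀ j ≤ 2 * A.card, 0 < (QP (fun k => Real.cos (a k)) A).coeff j) →
  (∀ i, i + 1 < 2 * A.card → 0 ≤ wv a A i) → 0 < wv a A 0 → 0 < wv a A 1 →
  ∀ i, 2 ≤ i → i + 1 ≤ A.card → 0 < wv a A i

theorem Lp_of_mid (a : ι → ℝ) (A : Finset ι) (ha : ∀ k ∈ A, 0 < a k ∧ a k < Real.pi)
    (h : Mid a A) : Lp a A := by
  intro hc hw i hi
  have hA : 0 < A.card := by omega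
  have h0 := wv_zero_pos a A ha hA
  have hlow : ∀ i, i + 1 ≤ A.card → 0 < wv a A i := by
    intro i hi
    rcases Nat.lt_or_ge i 2 with h2 | h2
    · rcases Nat.lt_or_ge i 1 with h1 | h1
      · have : i = 0 := by omega
        rw [this]
        exact h0
      · have : i = 1 := by omega
        rw [this]
        exact wv_one_pos a A ha hc (by omega)
    · exact h hc hw h0 (wv_one_pos a A ha hc (by omega)) i h2 hi
  by_cases h1 : i + 1 ≤ A.card
  · exact hlow i h1
  · rw [← wv_symm a A hi]
    exact hlow _ (by omega)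

/-- The block lemma, with the middle inequalities only. -/
theorem block_of_mid (a : ι → ℝ) (A : Finset ι)
    (ha : ∀ k ∈ A, 0 < a k ∧ a k < Real.pi)
    (hc : ∀ j, 0 ≤ (RP a A 0).coeff j)
    (hL : ∀ b : ι → ℝ, (∀ k ∈ A, a k ≤ b k ∧ b k < Real.pi) → Mid b A) :
    ∃ ε > (0 : ℝ), ∀ j, MonotoneOn (fun t : ℝ => (RP a A t).coeff j) (Icc 0 ε) := by
  apply block_of_class a A ha hc
  intro b hb
  exact Lp_of_mid b A (fun k hk => ⟨(ha k hk).1.trans_le (hb k hk).1, (hb k hk).2⟩) (hL b hb)

end Pool.Agent.MP_fe2d2a_anP
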